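import Mathlib
import Pool.Agent.Helper89.PCharMain

set_option autoImplicit false

universe u

namespace Pool.Agent.Results.MP_8e3030_al.AlmostSimpleReduction

open Pool.Agent.Helper89.PChar

/-- Let `G` be a finite insoluble group all of whose P-characters are monomial. Then `G` has a
section `A` which is almost simple, with socle `N` coming from a subnormal subgroup of `G` and
`A / N` soluble, such that all P-characters of `A` are monomial and, for every subgroup `U` of
minimal index among the subgroups of `A` not containing `N`: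
`A = U H` for every maximal subgroup `H` of `A` not containing `N`;
`|A : U| < |U : U ∩ X|` for every proper subgroup `X` of `A` with `X N = A`;
`2 |N : N ∩ U| ≤ |N : R|` for every proper subgroup `R` of `N` whose `N`-conjugacy class is
invariant under `A`; and `U ∩ N` has no nontrivial soluble normal subgroup. -/
theorem result (G : Type u) [Group G] [Finite G] (hG : AllPMonomial G)
    (hns : ¬ Group.IsSolvable G) :
    ∃ (A : Type u) (_ : Group A) (_ : Finite A) (N : Subgroup A),
      AlmostSimple A N ∧ IsSection G A N ∧ AllPMonomial A ∧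
      ∀ U : Subgroup A, IsMinIndex N U →
        (∀ H : Subgroup A, IsCoatom H → ¬ N ≤ H → ∀ a : A, ∃ u ∈ U, ∃ h ∈ H, a = u * h) ∧
        (∀ X : Subgroup A, X ≠ ⊤ → X ⊔ N = ⊤ → U.index < X.relIndex U) ∧
        (∀ R : Subgroup A, R < N →
          (∀ a : A, ∃ n ∈ N,
            R.map (MulAut.conj a).toMonoidHom = R.map (MulAut.conj n).toMonoidHom) →
          2 * U.relIndex N ≤ R.relIndex N) ∧
        (∀ T : Subgroup A, T ≤ U ⊓ N → (∀ d ∈ U ⊓ N, ∀ t ∈ T, d * t * d⁻¹ ∈ T) →
          Group.IsSolvable T → T = ⊥) := by
  obtain ⟨A, i1, i2, N, hA, hsec, hAll⟩ := exists_almostSimple _ G rfl hG hns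
  have hn := hA.normal
  refine ⟨A, i1, i2, N, hA, hsec, hAll, ?_⟩
  rintro U ⟨hNU, hmin⟩
  refine ⟨fun H hH hNH a => factorisation hAll N hA.perfect U hmin H hH hNH a,
    fun X hX hXN => supplement_bound hA hAll U hmin X hX hXN,
    fun R hR hinv => class_bound hA hAll U hNU hmin R hR hinv,
    fun T hT hinv hs => no_soluble hA hAll U hmin T hT hinv hs⟩

end Pool.Agent.Results.MP_8e3030_al.AlmostSimpleReduction
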