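import Mathlib
import Pool.Agent.Helper28.PC.Pair

set_option autoImplicit false

universe u

namespace Pool.Agent.Results.MP_8e3030_al.CompositionFactors

open Pool.Agent.Helper89.PChar
open Pool.Agent.Helper28.PC

/-- Let `G` be a finite group all of whose P-characters are monomial. Suppose that every
nonabelian composition factor `S` of `G` (a nonabelian simple homomorphic image of a subnormal
subgroup of `G`) has a proper subgroup of index less than twice the least index whose class is
invariant under `Aut S`, or two (possibly equal) subgroups of least index permuted by an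
automorphism in each coset of `Inn S` in `Aut S`, or satisfies `HasShortOrbits`. Then `G` is
soluble. -/
theorem result (G : Type u) [Group G] [Finite G] (hG : AllPMonomial G)
    (hS : ∀ L : Subgroup G, L.IsSubnormal → ∀ (S : Type u) [Group S], IsSimpleGroup S →
      (∃ x y : S, x * y ≠ y * x) → (∃ f : L →* S, Function.Surjective f) →
      HasInvariantClass S ∨ HasInvariantPair S ∨ HasShortOrbits S) :
    Group.IsSolvable G := by
  by_contra hns
  obtain ⟨A, i1, i2, N, hA, hsec, hAll⟩ := exists_almostSimple _ G rfl hG hns
  obtain ⟨K, φ, hφ, L, hL, hLK, hLN⟩ := hsec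
  have hmem : ∀ l : L, φ ⟨l, hLK l.2⟩ ∈ N := by
    intro l
    rw [← hLN]
    exact ⟨⟨l, hLK l.2⟩, l.2, rfl⟩
  let f : L →* N :=
    { toFun := fun l => ⟨φ ⟨l, hLK l.2⟩, hmem l⟩
      map_one' := Subtype.ext (map_one φ)
      map_mul' := fun a b => Subtype.ext (map_mul φ ⟨a, hLK a.2⟩ ⟨b, hLK b.2⟩) }
  have hf : Function.Surjective f := by
    rintro ⟨n, hn⟩
    rw [← hLN] at hn
    obtain ⟨k, hk, rfl⟩ := hn
    exact ⟨⟨k, hk⟩, rfl⟩
  rcases hS L hL N hA.simple (nonabelian' hA) ⟨f, hf⟩ with h | h | h
  · exact no_class hA hAll h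
  · exact no_pair hA hAll h
  · exact no_short hA hAll h

end Pool.Agent.Results.MP_8e3030_al.CompositionFactors
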